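import Mathlib
import Pool.Agent.Lib.MP_c87228_lc.Forcing
import Pool.Agent.Lib.MP_c87228_lc.Ideal
import Pool.Agent.Lib.MP_c87228_lc.Top
import Pool.Agent.Lib.MP_c87228_lc.Sanity

/-!
# A Borel sigma-ideal all of whose generic ultrafilters are Tukey-top

Question Q1 of MP_c87228_lc asks whether there is a `σ`-ideal `I` on a countable set `X` for which
some `P(X)/I`-generic ultrafilter is Tukey-top in the generic extension. The answer is yes, even
for a Borel ideal with atomless quotient and for *every* generic ultrafilter.
-/

namespace Pool.Agent.Results.MP_c87228_lc.BorelSigmaIdealTukeyTop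

open Pool.Agent.Lib.MP_c87228_lc

/-- There are a countable set `X` and a `σ`-ideal `I` on `X` such that: `I` is a Borel subset of
`P(X) = 2^X`; the quotient `P(X)/I` is atomless (every positive set splits into two positive
sets); and every condition of `P(X)/I` forces that the generic ultrafilter is Tukey-top. -/
theorem result : ∃ (X : Type) (_ : Countable X) (I : Set (Set X)),
    IsSigmaIdeal I ∧ MeasurableSet I ∧
    (∀ A : Set X, A ∉ I → ∃ B : Set X, B ⊆ A ∧ B ∉ I ∧ A \ B ∉ I) ∧
    ∀ p : Cond I, Forces p (IsTukeyTop (genericName I)) :=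
  ⟨Pt, inferInstance, idl, isSigmaIdeal_idl, measurable_idl, fun _ hA => atomless hA,
    fun p => generic_isTukeyTop isIdeal_idl fam fam_compl_mem (fun _ hT => iInter_fam_mem hT) p⟩

end Pool.Agent.Results.MP_c87228_lc.BorelSigmaIdealTukeyTop
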